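import Pool.Agent.X325.OB.GenBase

/-!
# Semiample nef line bundles: towers of general type over log canonical arrangements

Let `X` be a normal projective variety (for instance a projective manifold) with `K_X`
pseudo-effective. A prime divisor of `X` is *relevant* if it is not in the diminished base locus of
`K_X`: for each `η₀ > 0` it is not in the base locus of some `m (K_X + η A)`, `0 ≤ η ≤ η₀`, `A` a
given effective divisor. Let

  `X ⇢ W_l ⇢ ... ⇢ W_1 ⇢ W_0 = P^{n_1} × ... × P^{n_m}`, `l ≥ 0`,

be dominant rational maps, the first one generically finite, and suppose: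

* (the base) in each factor there are hyperplanes `ℓ i k = 0`, in any position, with weights
  `wt i k ≥ 0` such that the arrangement is log canonical (the sum of the weights of hyperplanes with
  a common point is at most the codimension of their intersection) and `∑ k, wt i k ≥ n i + 1`: a log
  Calabi-Yau arrangement if `∑ k, wt i k = n i + 1`, and one of log general type otherwise. If the
  `v i k` are the multiplicities of the hyperplanes at a relevant prime divisor `P` of `X`, not all
  zero, then `1 ≤ ∑ i, (mx_i - ∑ k, wt i k * v i k)`, where `mx_i` is the greatest sum of `n i + 1` of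
  the `v i k` whose hyperplanes have no common point, with strict inequality if a distinguished
  hyperplane `k0 i` of a log Calabi-Yau factor `i` has a positive multiplicity at `P`. (For instance
  `n i = 1`, `W_0` is a product of lines, the multiplicities over three points of each line are at
  least `(3, 3, 4)`, or `(2, 4, 5)`, or `(2, 3, 7)`, or over four points `(2, 2, 2, 3)`.);
* (the steps of the tower) for each `i < l` one of the following:
  * (orbifold) the fibres of `W_{i+1}` over `W_i`, *with the multiplicities of the fibres of `X` over
    `W_{i+1}`*, correspond to moving log canonical arrangements of log general type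
    (`OrbifoldFibres`, with conditions at the relevant prime divisors);
  * (isotrivial) after a generically finite base change `W_i' → W_i` the variety
    `W_{i+1} ×_{W_i} W_i'` has a generically finite rational map to `W_i' × V_i` over `W_i'`, where
    `V_i` is a smooth projective variety of general type of dimension `dim W_{i+1} - dim W_i`.

Then `κ(K_X) = dim X`, so `K_X` is big.

Relation with the question: let `X` be a projective manifold, `L` a nef line bundle such that
`m L - K_X` is nef. Then `m L` is big and nef, as a sum of `K_X` and a nef divisor, so that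
`2 m L - K_X` is nef and big, and `L` is semiample by the base-point-free theorem. The varieties `W_i`
may all be rational; there is no condition at the prime divisors in the diminished base locus of `K_X`
(the only use of the hypothesis that `K_X` is pseudo-effective), for instance at the exceptional
divisors of a blow-up.

The definitions are those of `Pool/Agent/X180/OP/Defs`, `AbDefs`, `MixDefsB` and
`Pool/Agent/Y191/LcForm`, `LcLow`.
-/

set_option autoImplicit false

open FF Pool.Agent.W602.GT Pool.Agent.Y172 Pool.Agent.Y191
open Pool.Agent.X180.OP (PseudoEffective Relevant)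
open Pool.Agent.X180.OM (IsMixedTower)

namespace Pool.Agent.Results.MP_1149f4_ag.GeneralTypeOverArrangements

variable {m : ℕ} {n q : Fin m → ℕ}

/-- The base: the hyperplanes `ℓ i k = 0` in the projective space of dimension `n i` have weights
`wt i k ≥ 0` with sum at least `n i + 1`, and the arrangements are log canonical (`LcArr`, over the
field of constants). -/
def IsBase (ℓ : ∀ i, Fin (q i) → Fin (n i + 1) → ℂ) (wt : ∀ i, Fin (q i) → ℚ) : Prop :=
  (∀ i, (∀ k, 0 ≤ wt i k) ∧ (n i + 1 : ℚ) ≤ ∑ k, wt i k) ∧
    LcArr (⊥ : IntermediateField ℂ ℂ) ℓ wt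

/-- The affine coordinates `x i (j + 1) / x i 0` of the points with the homogeneous coordinates
`x i`. -/
def affine {K : Type} [Field K] (x : ∀ i, Fin (n i + 1) → K) (b : (i : Fin m) × Fin (n i)) : K :=
  x b.1 b.2.succ / x b.1 0

/-- The multiplicities over the base, at the prime divisors `P ∈ S` of `X`: if the hyperplanes `ℓ i
k` have the multiplicities `v i k` at `P` (their orders are `a i + v i k`, where `a i` is the
minimum of the orders of the coordinates `x i j`), not all zero, then `1 ≤ ∑ i, (mx_i - ∑ k,
wt i k * v i k)`, with strict inequality if the multiplicity of the distinguished hyperplane `k0 i`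
is positive for some `i` with `∑ k, wt i k = n i + 1`. -/
def Multiplicities {K : Type} [Field K] [Algebra ℂ K] (S : Set (Place ℂ K))
    (ℓ : ∀ i, Fin (q i) → Fin (n i + 1) → ℂ) (wt : ∀ i, Fin (q i) → ℚ)
    (x : ∀ i, Fin (n i + 1) → K) (k0 : ∀ i, Fin (q i)) : Prop :=
  ∀ P ∈ S, ∀ (a : Fin m → ℤ) (v : ∀ i, Fin (q i) → ℕ),
    (∀ i, MOrd P (fun k j => algebraMap ℂ K (ℓ i k j)) (x i) (a i) (v i)) → (∃ i, v i ≠ 0) →
    1 ≤ ∑ i, ((mx ℓ i (v i) : ℚ) - ∑ k, wt i k * v i k) ∧
      ((∃ i, ∑ k, wt i k = (n i + 1 : ℚ) ∧ v i (k0 i) ≠ 0) →
        1 < ∑ i, ((mx ℓ i (v i) : ℚ) - ∑ k, wt i k * v i k))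

/-- **General type.** Let `ℓ i` be log canonical arrangements of hyperplanes with weights `wt i k`
with sums at least `n i + 1`, as in `IsBase`. Let `X` be a normal projective variety and `A` an
effective `ℚ`-divisor such that `K_X` is pseudo-effective (tested with `A`), and
`X ⇢ W_l ⇢ ... ⇢ W_0` a mixed tower over the product `W_0` of the projective spaces, given by
homogeneous coordinates `x i`, with `dim W_l = dim X`, whose steps are of (log) general type. Suppose
that the condition `Multiplicities` holds at the relevant prime divisors of `X`. Then the Kodaira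
dimension of `K_X` is `dim X`. -/
theorem result (ℓ : ∀ i, Fin (q i) → Fin (n i + 1) → ℂ) (wt : ∀ i, Fin (q i) → ℚ)
    (hℓ : IsBase ℓ wt) (k0 : ∀ i, Fin (q i)) (K : Type) [Field K] [Algebra ℂ K] (N l : ℕ)
    (E : Fin (l + 1) → IntermediateField ℂ K) (D : Fin (l + 1) → ℕ) (e : Fin l → ℕ)
    (y : Fin (N + 1) → K) (hy : NormalModel y) (hn : Algebra.trdeg ℂ K = D (Fin.last l))
    (A : Place ℂ K → ℚ) (hA : Effective y A) (hps : PseudoEffective y (D (Fin.last l)) 0 A)
    (x : ∀ i, Fin (n i + 1) → K)
    (hx0 : ∀ i, x i 0 ≠ 0) (hind : AlgebraicIndependent ℂ (affine x))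
    (hE0 : E 0 = IntermediateField.adjoin ℂ (Set.range (affine x)))
    (hm : Multiplicities (Relevant y (D (Fin.last l)) 0 0 A) ℓ wt x k0)
    (hT : IsMixedTower (Relevant y (D (Fin.last l)) 0 0 A) (fun _ => 0) E D e e) :
    kodairaDim y (D (Fin.last l)) 0 = (D (Fin.last l) : WithBot ℕ) :=
  Pool.Agent.X325.OB.lc_general (fun i => (hℓ.1 i).1) (fun i => (hℓ.1 i).2) hℓ.2 hy hn hA hps hx0
    hind hE0 k0 hm hT

end Pool.Agent.Results.MP_1149f4_ag.GeneralTypeOverArrangements
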