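import Pool.Agent.X180.OP.Gen
import Pool.Agent.X180.OT.Small

/-!
# Semiample nef line bundles: varieties of general type as orbifold towers

Let `X` be a normal projective variety (for instance a projective manifold) with `K_X`
pseudo-effective. A prime divisor of `X` is *relevant* if it is not in the diminished base locus of
`K_X`: for each `η₀ > 0` it is not in the base locus of some `m (K_X + η A)`, `0 ≤ η ≤ η₀`, `A` a
given effective divisor. Let

  `X ⇢ W_l ⇢ ... ⇢ W_1 ⇢ W_0 ⊂ P^v`, `l ≥ 0`,

be dominant rational maps, the first one generically finite, where `W_0` is any subvariety of `P^v`,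
of dimension `p`, and suppose:

* (the base) there are hyperplanes in general position in `P^v`, not containing `W_0`, which impose
  independent conditions on the forms of degree `d ≥ 1`, with weights `wt i ≥ 0` such that
  `∑ i, wt i > (p + 1) γ`, `γ = (v - p + d).choose (v - p)`, and the multiplicities `μ i` of the
  hyperplanes at each relevant prime divisor of `X` satisfy
  `min (#{i | μ i ≠ 0}) γ ≤ ∑ i, (1 - wt i) μ i`. (So if `W_0 = P^v` then `γ = 1`, and it is enough
  that the multiplicities are `0` or at least `1 / (1 - wt i)`, and `∑ i, wt i > v + 1`.)
* (the steps of the tower) for each `i < l` one of the following: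
  * (orbifold) the fibres of `W_{i+1}` over `W_i`, *with the multiplicities of the fibres of `X` over
    `W_{i+1}`*, correspond to moving log canonical arrangements of log general type: there is a variety
    `X'` with a generically finite map `X' ⇢ X` (ramified anywhere) and a rational map over `W_i` of
    `X'` to a relative product of projective spaces `P^{r_1} × ... × P^{r_c}`, `r_j ≥ 1`, whose fibres
    are, up to finite maps, the fibres of `X' ⇢ W_{i+1}`; in each `P^{r_j}` there are any hyperplanes
    `A j k = 0`, in any position, which move with the point of a variety finite over `W_i`, with weights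
    `w j k ≥ 0`, such that the arrangement is log canonical (the sum of the weights of hyperplanes with
    a common point is at most the codimension of their intersection) and `∑ k, w j k > r_j + 1`. If `Q`
    is a place of the function field of `X'` over a relevant prime divisor `P` of `X` which dominates
    `W_i` but not `W_{i+1}`, with ramification index `ε`, and `e j k` are the multiplicities of the
    hyperplanes at `Q`, not all zero, then `ε ≤ ∑ (mx_j - ∑ w j k e j k)`, where `mx_j` is the greatest
    sum of `r_j + 1` of the `e j k` whose hyperplanes have no common point (`ε ≤ 1`, if all `e j k` are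
    zero);
  * (isotrivial) after a generically finite base change `W_i' → W_i` the variety
    `W_{i+1} ×_{W_i} W_i'` has a generically finite rational map to `W_i' × V_i` over `W_i'`, where
    `V_i` is a smooth projective variety of general type of dimension `dim W_{i+1} - dim W_i`.

Then `κ(K_X) = dim X`, so `K_X` is big.

Relation with the question: let `X` be a projective manifold, `L` a nef line bundle such that
`m L - K_X` is nef. Then `m L` is big and nef, as a sum of `K_X` and a nef divisor, so that
`2 m L - K_X` is nef and big, and `L` is semiample by the base-point-free theorem. The varieties `W_i`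
may all be rational; there is no condition at the prime divisors in the diminished base locus of `K_X`
(the only use of the hypothesis that `K_X` is pseudo-effective), for instance at the exceptional
divisors of a blow-up.

Notation: `X` is given by the homogeneous coordinates `y` of its generic point, with values in the
function field `K`; prime divisors are places `P` of `K`, `P.ord` is the order along `P`;
`OrdData P ℓ b a μ`: the order of `ℓ i (b)` is `a + μ i`, where `a` is the minimum of the orders of
the `b j`. `E i` is the function field of `W_i`. `kodairaDim` is the literal definition of the Kodaira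
dimension by means of the dimensions of the spaces of sections of `m K_X`. Definitions:
`Pool/Agent/X180/OP/Defs`, `AbDefs`, `MixDefsB`.

Proof: for an orbifold step `Z' → Z` of the tower the products of determinants of logarithmic
derivatives of the linear forms are forms of degree `dim Z' - dim Z` along the fibres; their norms are
estimated at the relevant prime divisors of `X` (`Pool.Agent.X180.Orb`); for an isotrivial step the
norms of the pluricanonical forms of `V_i` are used. They are multiplied with adapted regular vector
fields, and with forms of the base (`Pool.Agent.Y191.small_fib`, starting library). The products are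
regular at the relevant prime divisors, and as `K_X` is pseudo-effective, their products with sections
of multiples of `K_X + η A` which vanish to high order along the other ones are used
(`Pool.Agent.X327.lc_gam`).
-/

set_option autoImplicit false

open FF Pool.Agent.W602.GT Pool.Agent.Y172 Pool.Agent.Y191
open Pool.Agent.X180.OP (PseudoEffective Relevant)
open Pool.Agent.X180.OM (IsMixedTower)

namespace Pool.Agent.Results.MP_1149f4_ag.GeneralTypeTowers

section

variable {K : Type} [Field K] [Algebra ℂ K]

/-- The `b j` are the coordinates of a rational map whose image has dimension `p` and is not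
contained in one of the hyperplanes `ℓ i = 0`. -/
def IsMap {v q : ℕ} (ℓ : Fin q → Fin (v + 1) → ℂ) (b : Fin (v + 1) → K) (p : ℕ) : Prop :=
  (∀ i, lf (ℓ i) b ≠ 0) ∧ (∃ j, b j ≠ 0) ∧ Algebra.trdeg ℂ (RF ℂ b) = p

/-- The condition on the multiplicities of the hyperplanes at the prime divisors in `S`. -/
def SmallMultiplicities {v q : ℕ} (S : Set (Place ℂ K)) (ℓ : Fin q → Fin (v + 1) → ℂ)
    (b : Fin (v + 1) → K) (wt : Fin q → ℚ) (γ : ℕ) : Prop :=
  ∀ P ∈ S, ∀ (a : ℤ) (μ : Fin q → ℕ), OrdData P ℓ b a μ →
    ((min (Finset.univ.filter fun i => μ i ≠ 0).card γ : ℕ) : ℚ) ≤ ∑ i, (1 - wt i) * μ i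

end

/-- **General type.** Let `X` be a normal projective variety and `A` an effective `ℚ`-divisor such
that `K_X` is pseudo-effective (tested with `A`), `b` the coordinates of a rational map `X ⇢ P^v`
whose image is the bottom `W_0`, of dimension `D 0`, of a mixed tower `X ⇢ W_l ⇢ ... ⇢ W_0` with
`dim W_l = dim X`, whose steps are of (log) general type. Let `ℓ i = 0` be hyperplanes in general
position which do not contain `W_0` and impose independent conditions on the forms of degree `d`, with
weights `wt i ≥ 0` whose sum is greater than `(D 0 + 1) * γ`,
`γ = (v - D 0 + d).choose (v - D 0)`, and let the multiplicities `μ i` satisfy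
`min (#{i | μ i ≠ 0}) γ ≤ ∑ i, (1 - wt i) μ i` at all relevant prime divisors of `X`. Then the Kodaira
dimension of `K_X` is `dim X`. -/
theorem result {v q d : ℕ} (hd : 0 < d) (ℓ : Fin q → Fin (v + 1) → ℂ) (hI : Independent d ℓ)
    (hg : GeneralPosition ℓ) (hq : v + 1 ≤ q) (K : Type) [Field K] [Algebra ℂ K]
    (N l : ℕ) (E : Fin (l + 1) → IntermediateField ℂ K) (D : Fin (l + 1) → ℕ) (e : Fin l → ℕ)
    (y : Fin (N + 1) → K) (hy : NormalModel y) (hn : Algebra.trdeg ℂ K = D (Fin.last l))
    (A : Place ℂ K → ℚ) (hA : Effective y A) (hps : PseudoEffective y (D (Fin.last l)) 0 A)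
    (b : Fin (v + 1) → K) (hb : IsMap ℓ b (D 0)) (hE0 : E 0 = RF ℂ b)
    (hT : IsMixedTower (Relevant y (D (Fin.last l)) 0 0 A) (fun _ => 0) E D e e)
    (wt : Fin q → ℚ) (hwt : ∀ i, 0 ≤ wt i)
    (hs : (((D 0 + 1) * (v - D 0 + d).choose (v - D 0) : ℕ) : ℚ) < ∑ i, wt i)
    (hm : SmallMultiplicities (Relevant y (D (Fin.last l)) 0 0 A) ℓ b wt
      ((v - D 0 + d).choose (v - D 0))) :
    kodairaDim y (D (Fin.last l)) 0 = (D (Fin.last l) : WithBot ℕ) := by
  obtain ⟨hl, hb0, htr⟩ := hb
  have h00 : Effective y (0 : Place ℂ K → ℚ) := ⟨fun _ _ => le_rfl, by simp⟩
  have hsum : D (Fin.last l) = D 0 + ∑ i, e i :=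
    Pool.Agent.X180.TP.dims fun i => (hT.2 i).2.1
  have hz : (fun P => (((0 : Place ℂ K → ℚ) P : ℚ) : ℝ)) = fun _ : Place ℂ K => (0 : ℝ) :=
    funext fun P => Rat.cast_zero
  have hz' : Pool.Agent.X180.Iso.hor (E 0) (fun _ : Place ℂ K => (0 : ℝ)) = fun _ => 0 := by
    funext P
    unfold Pool.Agent.X180.Iso.hor
    split_ifs <;> rfl
  refine Pool.Agent.X180.OP.general_type (Γ := 0) ⟨hy, hn, h00⟩ h00 hA
    (by rw [sub_zero]; exact hps) (by rw [hz]; exact hT) (fun lam' h0 => ?_) 0
    fun P _ => ⟨fun _ => rfl, fun h => absurd rfl h⟩
  rw [hz, hz', hE0] at h0
  rw [hz]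
  exact (Pool.Agent.X180.OT.small_base hd hI hg hq hl hb0 htr (by rw [hn, hsum]) hwt hs.le
    (fun P hP => hm P hP) h0).2 hs

end Pool.Agent.Results.MP_1149f4_ag.GeneralTypeTowers
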