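import Pool.Agent.X180.OJ.Gen

/-!
# Semiample nef line bundles: towers of products of constant orbifolds and moving arrangements

Let `X` be a normal projective variety (for instance a projective manifold) with `K_X`
pseudo-effective. A prime divisor of `X` is *relevant* if it is not in the diminished base locus of
`K_X`: for each `η₀ > 0` it is not in the base locus of some `m (K_X + η A)`, `0 ≤ η ≤ η₀`, `A` a
given effective divisor. Let

  `X ⇢ W_l ⇢ ... ⇢ W_1 ⇢ W_0`, `l ≥ 0`,

be dominant rational maps, the first one generically finite, and suppose:

* (the base) for some `m > 0` there are `m`-canonical forms on `W_0` with `dim W_0` algebraically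
  independent ratios, with poles of order at most `m (1 - 1 / ν)` at the place `p` of the function
  field of `W_0`, if there is a *relevant* prime divisor of `X` over `p` with multiplicity `ν`. (No
  condition if `W_0` is a point. `W_0` may be rational.)
* (the steps of the tower) for each `i < l` the fibres of `W_{i+1}` over `W_i`, of dimension `e_i`,
  *with the multiplicities of the fibres of `X` over `W_{i+1}`*, correspond to the product of one
  orbifold `V_i` (which does not depend on the point of `W_i`) and of moving log canonical
  arrangements: there are a variety `X'` with a generically finite map `X' ⇢ X` (ramified anywhere)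
  and a rational map of `X'` to `V_i × P^{r_1} × ... × P^{r_c}`, `r_j ≥ 1`, which is dominant on the
  fibres of `X'` over `W_i`, and whose fibres (over `W_i`) are, up to finite maps, the fibres of
  `X' ⇢ W_{i+1}`; `a (p) ≥ 0` is the log discrepancy of an orbifold divisor at the places `p` of `V_i`
  in the image of the relevant prime divisors of `X`, and the Kodaira dimension of `(V_i, a)` is at
  least `h_i`; in each `P^{r_j}` there are any hyperplanes `A j k = 0`, in any position, which move with
  the point of a variety finite over `W_i`, with weights `w j k ≥ 0`, such that the arrangement is log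
  canonical (the sum of the weights of hyperplanes with a common point is at most the codimension of
  their intersection) and `∑ k, w j k ≥ r_j + 1`. Let `Q` be a place of the function field of `X'` over
  a relevant prime divisor `P` of `X` which dominates `W_i` but not `W_{i+1}`, with ramification index
  `ε`, let `e j k` be the multiplicities of the hyperplanes at `Q`, and
  `R = ∑ (mx_j - ∑ w j k e j k)`, where `mx_j` is the greatest sum of `r_j + 1` of the `e j k`
  whose hyperplanes have no common point. Then `ε ≤ ν a (p) + R` if `Q` lies over the place `p` of
  `V_i`, with ramification index `ν`; and if `Q` dominates `V_i` then `ε ≤ R`, or `ε ≤ 1` if all `e j k`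
  are zero. Suppose that `h_i` plus the sum of the `r_j` with `∑ k, w j k > r_j + 1` is `e_i`.

Then `κ(K_X) = dim X`, so `K_X` is big.

Relation with the question: let `X` be a projective manifold, `L` a nef line bundle such that
`m L - K_X` is nef. Then `m L` is big and nef, as a sum of `K_X` and a nef divisor, so that
`2 m L - K_X` is nef and big, and `L` is semiample by the base-point-free theorem. There is no
condition at the prime divisors in the diminished base locus of `K_X`: the negligible divisors, for
instance the exceptional divisors of a blow-up, may have any multiplicity over `W_0`, or any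
ramification in the steps.

Notation: `X` is given by the homogeneous coordinates `y` of its generic point, with values in the
function field `K`; prime divisors are places `P` of `K`, `P.ord` is the order along `P`. `E i` is the
function field of `W_i`. `kodairaDim` is the literal definition of the Kodaira dimension by means of
the dimensions of the spaces of sections of `m K_X`. Definitions: `Pool/Agent/X180/OJ/Defs`
(`JointFibres`, `IsTower`), `OD/Defs` (`OrbifoldKodGe`), `OD/BaseDefs` (`BaseKodGe`), `OP/AbDefs`.

Proof: the forms of a step are products of the pull backs of the forms of `V_i`, of determinants of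
logarithmic derivatives of the linear forms, and of one joint Wronskian of the coordinates of `V_i` and
of the `P^{r_j}` (`Pool.Agent.X180.OJ.joint_est`); their norms are estimated at the relevant prime
divisors of `X` (`Pool.Agent.X180.OJ.joint_part`). They are multiplied along adapted regular vector
fields, and with the forms of the base. The products are regular at the relevant prime divisors, and
as `K_X` is pseudo-effective, their products with sections of multiples of `K_X + η A` which vanish to
high order along the other ones are used (`Pool.Agent.X327.lc_gam`).
-/

set_option autoImplicit false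

open FF Pool.Agent.W602.GT Pool.Agent.Y172 Pool.Agent.Y191
open Pool.Agent.X180.OP (PseudoEffective Relevant)
open Pool.Agent.X180.OJ (IsTower)
open Pool.Agent.X180.OD (BaseKodGe)

namespace Pool.Agent.Results.MP_1149f4_ag.JointGeneralTypeTowers

/-- **General type.** Let `X` be a normal projective variety and `A` an effective `ℚ`-divisor such
that `K_X` is pseudo-effective (tested with `A`), `X ⇢ W_l ⇢ ... ⇢ W_0` a tower of dominant rational
maps with `dim W_l = dim X` such that the orbifold base of `X` over `W_0` is of general type, and the
steps are as in `JointFibres`, of dimensions and log Kodaira dimensions `e i`, both for the relevant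
prime divisors of `X`. Then the Kodaira dimension of `K_X` is `dim X`. -/
theorem result (K : Type) [Field K] [Algebra ℂ K]
    (N l : ℕ) (E : Fin (l + 1) → IntermediateField ℂ K) (D : Fin (l + 1) → ℕ) (e : Fin l → ℕ)
    (y : Fin (N + 1) → K) (hy : NormalModel y) (hn : Algebra.trdeg ℂ K = D (Fin.last l))
    (A : Place ℂ K → ℚ) (hA : Effective y A) (hps : PseudoEffective y (D (Fin.last l)) 0 A)
    [Algebra.EssFiniteType ℂ (E 0)]
    (hY : BaseKodGe (Relevant y (D (Fin.last l)) 0 0 A) (E 0) (D 0) (D 0))
    (hT : IsTower (Relevant y (D (Fin.last l)) 0 0 A) (fun _ => 0) E D e e) :
    kodairaDim y (D (Fin.last l)) 0 = (D (Fin.last l) : WithBot ℕ) := by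
  have h00 : Effective y (0 : Place ℂ K → ℚ) := ⟨fun _ _ => le_rfl, by simp⟩
  have hsum : D (Fin.last l) = D 0 + ∑ i, e i :=
    Pool.Agent.X180.TP.dims fun i => (hT.2 i).2.1
  have hz : (fun P => (((0 : Place ℂ K → ℚ) P : ℚ) : ℝ)) = fun _ : Place ℂ K => (0 : ℝ) :=
    funext fun P => Rat.cast_zero
  have hz' : Pool.Agent.X180.Iso.hor (E 0) (fun _ : Place ℂ K => (0 : ℝ)) = fun _ => 0 := by
    funext P
    unfold Pool.Agent.X180.Iso.hor
    split_ifs <;> rfl
  refine Pool.Agent.X180.OJ.general_type (Γ := 0) ⟨hy, hn, h00⟩ h00 hA
    (by rw [sub_zero]; exact hps) (by rw [hz]; exact hT) (fun lam' h0 => ?_) 0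
    fun P _ => ⟨fun _ => rfl, fun h => absurd rfl h⟩
  rw [hz, hz'] at h0
  rw [hz]
  exact Pool.Agent.X180.OD.orb_base (by rw [hn, hsum]) (hT.1 0) hY h0

end Pool.Agent.Results.MP_1149f4_ag.JointGeneralTypeTowers
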