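import Pool.Agent.X324.SA.Nef

set_option autoImplicit false

/-!
# Generalised abundance for quotients of products `A × F`

Let `X = (A × F) / G` be projective, where `A = V / Λ` is an abelian variety, `F = ∏ F i` a product of
normal projective `ℚ`-factorial varieties such that `Cl(F)` is free and the direct sum of the
`Cl(F i)`, and `G` a finite group which acts on both factors. Let `K` be a class of `F` and `𝒦` a
reflexive sheaf of rank one on `X` with degree `K`; if `G` acts on `A × F` freely (or freely in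
codimension one) then for `K = K_F` the canonical sheaf of `X` is such a sheaf. Suppose that each
`F i` satisfies the generalised abundance conjecture for the component of `K`; this holds for all `F i`
of dimension at most two with their canonical class (Lazić–Peternell), and for all `F i` on which nef
classes are semiample, such as Mori dream spaces.

The theorem says that `X` satisfies the generalised abundance conjecture: if `𝒦` is pseudoeffective,
`L` nef and `m L - 𝒦` nef for some `m ≥ 1`, then `L` is numerically semiample, that is, a positive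
multiple of the class of `L` in `N^1(X)` is the class of a semiample sheaf. Here `X` may be singular,
the dimension of `X` and the number of the factors are arbitrary, the elements of `G` may permute the
factors, and `F i` may be given by a Cox ring which is not finitely generated.

The proof: a nef class is a pair of a semidefinite hermitian form `H` on `V` and a nef class `β` of `F`,
and the components of `β` are semiample by the hypothesis. The form has a multiple which is the Chern
form of a base point free line bundle on `V / Γ`; this line bundle is multiplied with the norms of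
sections of multiples of `β`.

`Cl`, `Semistable`, `SemiampleF`, `Grp`, `IsQuotient`, `Sheaf`, `IsClass`, `N1`, `integral`,
`effective`, `semiample`, `coneHull`, `nefCone` and `effCone` are defined in `Pool.Agent.X324.CF.Defs`;
`IsCoxRing`, `IsProduct`, `part`, `real`, `nefF` and `effF` in `Pool.Agent.X324.CG.Defs`.
-/

namespace Pool.Agent.Results.MP_1149f4_ag.ProductQuotients

open Pool.Agent.X324.CF
open Pool.Agent.X324.CG (IsCoxRing IsProduct part real nefF effF)

/-- The space `N^1(X)`. (In the absolute case the linear subspace `E` of `V` of the general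
definitions is `V` itself, embedded by the identity map.) -/
abbrev NS {V R : Type*} [NormedAddCommGroup V] [NormedSpace ℂ V] [CommRing R] [Algebra ℂ R] {ρ : ℕ}
    (𝒜 : Cl ρ → Submodule ℂ R) (Γ : Grp V R) : Type _ :=
  N1 𝒜 Γ (LinearMap.id : V →ₗ[ℂ] V)

/-- The nef cone of `X`. -/
def nef {V R : Type*} [NormedAddCommGroup V] [NormedSpace ℂ V] [CommRing R] [Algebra ℂ R] {ρ : ℕ}
    (𝒜 : Cl ρ → Submodule ℂ R) (Γ : Grp V R) (u : Cl ρ) : Set (NS 𝒜 Γ) :=
  nefCone 𝒜 Γ LinearMap.id u

/-- The pseudoeffective cone of `X`. -/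
def psef {V R : Type*} [NormedAddCommGroup V] [NormedSpace ℂ V] [CommRing R] [Algebra ℂ R] {ρ : ℕ}
    (𝒜 : Cl ρ → Submodule ℂ R) (Γ : Grp V R) : Set (NS 𝒜 Γ) :=
  closure (effCone 𝒜 Γ LinearMap.id)

/-- `x` is the class of the sheaf `𝓛` in `N^1(X)`. -/
def HasClass {V R : Type*} [NormedAddCommGroup V] [NormedSpace ℂ V] [CommRing R] [Algebra ℂ R]
    {ρ : ℕ} {𝒜 : Cl ρ → Submodule ℂ R} {Γ : Grp V R} (𝓛 : Sheaf 𝒜 Γ) (x : NS 𝒜 Γ) : Prop :=
  IsClass LinearMap.id 𝓛 (val x)

/-- The generalised abundance conjecture for the factor `F i`, where the component of `K` is in the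
place of the canonical class: if `K_{F i}` is pseudoeffective, `β` a nef class of `F i` and
`m β - K_{F i}` nef for some `m ≥ 1`, then `β` is semiample. (Since `Cl(F i)` is free, numerically
equivalent `ℚ`-divisors on `F i` are `ℚ`-linearly equivalent.) -/
def GeneralisedAbundance {R κ : Type*} [CommRing R] [Algebra ℂ R] [DecidableEq κ] {ρ : ℕ}
    (𝒜 : Cl ρ → Submodule ℂ R) (u : Cl ρ) (c : Fin ρ → κ) (K : Cl ρ) (i : κ) : Prop :=
  real (part c i K) ∈ closure (effF 𝒜 c i) →
    ∀ β : Cl ρ, (∀ k, c k ≠ i → β k = 0) → real β ∈ nefF 𝒜 u c i →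
      (∃ m : ℕ, 1 ≤ m ∧ (m : ℝ) • real β - real (part c i K) ∈ nefF 𝒜 u c i) →
        SemiampleF 𝒜 u β

/-- Let `F` be the product of the varieties `F i`, which satisfy the generalised abundance conjecture
with respect to the components of the class `K`. Let `X = (V × F) / Γ`, and let `𝒦` be a sheaf on `X` of
degree `K` whose class `k` is pseudoeffective. Let `𝓛` be a sheaf on `X` with class `x`, such that `x` and
`m x - k` are nef for some `m ≥ 1`. Then `𝓛` is numerically semiample: for some `n ≥ 1` there is a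
semiample sheaf with class `n x`. -/
theorem result {V R κ : Type*} [NormedAddCommGroup V] [NormedSpace ℂ V] [FiniteDimensional ℂ V]
    [CommRing R] [IsDomain R] [Algebra ℂ R] [DecidableEq κ] [Fintype κ] {ρ : ℕ}
    (𝒜 : Cl ρ → Submodule ℂ R) [GradedAlgebra 𝒜] (u : Cl ρ) (hF : IsCoxRing 𝒜 u)
    (c : Fin ρ → κ) (hprod : IsProduct 𝒜 c) (K : Cl ρ)
    (hK : ∀ i, GeneralisedAbundance 𝒜 u c K i)
    (Γ : Grp V R) (hX : IsQuotient 𝒜 u Γ)
    (𝒦 : Sheaf 𝒜 Γ) (h𝒦 : 𝒦.deg = K) (k : NS 𝒜 Γ) (hk : HasClass 𝒦 k) (hpsef : k ∈ psef 𝒜 Γ)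
    (𝓛 : Sheaf 𝒜 Γ) (x : NS 𝒜 Γ) (hx : HasClass 𝓛 x) (hnef : x ∈ nef 𝒜 Γ u)
    (m : ℕ) (hm : 1 ≤ m) (hmk : (m : ℝ) • x - k ∈ nef 𝒜 Γ u) :
    ∃ n : ℕ, 1 ≤ n ∧ ∃ 𝓜 : Sheaf 𝒜 Γ, HasClass 𝓜 ((n : ℝ) • x) ∧ 𝓜.IsSemiample u := by
  obtain ⟨⟨H, hH, h1⟩, h2⟩ := hx
  have h2' : (val x).2 = real 𝓛.deg := funext h2
  have hk2 : (val k).2 = real K := by rw [← h𝒦]; exact funext hk.2
  obtain ⟨hform, hdeg⟩ := Pool.Agent.X324.SA.nef_sub hF hX hnef
  obtain ⟨-, hdeg2⟩ := Pool.Agent.X324.SA.nef_sub hF hX hmk
  have hn : Pool.Agent.W594.SYZ2.IsNefForm H := by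
    intro v
    have h3 := hform v
    rw [h1] at h3
    exact h3
  have hsa : SemiampleF 𝒜 u 𝓛.deg := by
    refine Pool.Agent.X324.SA.semi_of_parts (c := c) fun i => hK i ?_ _
      (Pool.Agent.X324.CG.part_BL i _) ?_ ⟨m, hm, ?_⟩
    · have h3 := Pool.Agent.X324.SA.part_psef hprod i hpsef
      have h6 : Pool.Agent.X324.CG.partR c i (real K) = real (part c i K) :=
        Pool.Agent.X324.CG.partR_rv c i K
      rwa [hk2, h6] at h3
    · have h3 := Pool.Agent.X324.SA.part_nef (u := u) hprod i hdeg
      have h5 : Pool.Agent.X324.CG.partR c i (real 𝓛.deg) = real (part c i 𝓛.deg) :=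
        Pool.Agent.X324.CG.partR_rv c i 𝓛.deg
      rwa [h2', h5] at h3
    · have h3 := Pool.Agent.X324.SA.part_nef (u := u) hprod i hdeg2
      have h4 : (val ((m : ℝ) • x - k)).2 = (m : ℝ) • real 𝓛.deg - real K := by
        rw [← h2', ← hk2]
        rfl
      rw [h4, map_sub, map_smul] at h3
      have h5 : Pool.Agent.X324.CG.partR c i (real 𝓛.deg) = real (part c i 𝓛.deg) :=
        Pool.Agent.X324.CG.partR_rv c i 𝓛.deg
      have h6 : Pool.Agent.X324.CG.partR c i (real K) = real (part c i K) :=
        Pool.Agent.X324.CG.partR_rv c i K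
      rwa [h5, h6] at h3
  obtain ⟨n, hn0, 𝓜, hs, hc, hd⟩ := Pool.Agent.X324.SA.exists_num
    (Pool.Agent.X324.SA.base_of hF) hX hH hn hsa
  refine ⟨n, hn0, 𝓜, ⟨⟨_, hc, fun v w => ?_⟩, fun i => ?_⟩, hs⟩
  · change (n : ℝ) • (val x).1 v w = (n : ℂ) * H v w
    rw [h1, Complex.real_smul]
    push_cast
    rfl
  · change (n : ℝ) * (val x).2 i = _
    rw [h2, hd]
    simp

end Pool.Agent.Results.MP_1149f4_ag.ProductQuotients
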